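import Mathlib

open Finset
open scoped BigOperators

namespace Pool.Agent.X7.DistinctSum

/-- rank lemma -/
theorem sum_rank {α : Type*} [LinearOrder α] (h : ℕ → ℝ) (s : Finset α) :
    ∑ a ∈ s, h (s.filter (fun b => a ≤ b)).card = ∑ t ∈ range s.card, h (t+1) := by
  induction s using Finset.induction_on_min with
  | empty => simp
  | insert a s ha ih =>
    have hna : a ∉ s := fun h => lt_irrefl _ (ha a h)
    rw [Finset.sum_insert hna, Finset.card_insert_of_notMem hna, Finset.sum_range_succ, add_comm]
    congr 1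
    · rw [← ih]
      apply Finset.sum_congr rfl
      intro c hc
      rw [Finset.filter_insert, if_neg (not_le.mpr (ha c hc))]
    · congr 1
      rw [Finset.filter_insert, if_pos le_rfl, Finset.card_insert_of_notMem (by simp [hna])]
      rw [Finset.filter_true_of_mem (fun b hb => (ha b hb).le)]

theorem avg_swap {N : ℕ} (h : ℕ → ℝ) (T : Finset (Fin N)) (x x' : Fin N) (hx : x ∈ T)
    (hx' : x' ∈ T) :
    ∑ τ : Equiv.Perm (Fin N), h (T.filter (fun y => τ x ≤ τ y)).card =
      ∑ τ : Equiv.Perm (Fin N), h (T.filter (fun y => τ x' ≤ τ y)).card := by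
  rw [← Equiv.sum_comp (Equiv.mulRight (Equiv.swap x x'))]
  apply Finset.sum_congr rfl
  intro τ _
  congr 1
  apply Finset.card_bij (fun y _ => Equiv.swap x x' y)
  · intro y hy
    simp only [mem_filter, Equiv.coe_mulRight, Equiv.Perm.mul_apply, Equiv.swap_apply_left] at hy ⊢
    refine ⟨?_, hy.2⟩
    rw [Equiv.swap_apply_def]
    split_ifs
    · exact hx'
    · exact hx
    · exact hy.1
  · intro a _ b _ hab
    exact (Equiv.swap x x').injective hab
  · intro b hb
    simp only [mem_filter] at hb
    refine ⟨Equiv.swap x x' b, ?_, by simp⟩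
    simp only [mem_filter, Equiv.coe_mulRight, Equiv.Perm.mul_apply, Equiv.swap_apply_left,
      Equiv.swap_apply_self]
    refine ⟨?_, hb.2⟩
    rw [Equiv.swap_apply_def]
    split_ifs
    · exact hx'
    · exact hx
    · exact hb.1

theorem avg_rank {N : ℕ} (h : ℕ → ℝ) (T : Finset (Fin N)) (x : Fin N) (hx : x ∈ T) :
    (T.card : ℝ) * ∑ τ : Equiv.Perm (Fin N), h (T.filter (fun y => τ x ≤ τ y)).card =
      (N.factorial : ℝ) * ∑ t ∈ range T.card, h (t+1) := by
  have h1 : (T.card : ℝ) * ∑ τ : Equiv.Perm (Fin N), h (T.filter (fun y => τ x ≤ τ y)).card =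
      ∑ x' ∈ T, ∑ τ : Equiv.Perm (Fin N), h (T.filter (fun y => τ x' ≤ τ y)).card := by
    rw [← nsmul_eq_mul, ← Finset.sum_const]
    apply Finset.sum_congr rfl
    intro x' hx'
    exact avg_swap h T x x' hx hx'
  rw [h1, Finset.sum_comm]
  have h2 : ∀ τ : Equiv.Perm (Fin N), ∑ x' ∈ T, h (T.filter (fun y => τ x' ≤ τ y)).card =
      ∑ t ∈ range T.card, h (t+1) := by
    intro τ
    have h3 := sum_rank h (T.image τ)
    rw [Finset.card_image_of_injective _ τ.injective] at h3
    rw [← h3, Finset.sum_image (fun a _ b _ hab => τ.injective hab)]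
    apply Finset.sum_congr rfl
    intro x' _
    congr 1
    rw [Finset.filter_image, Finset.card_image_of_injective _ τ.injective]
  rw [Finset.sum_congr rfl (fun τ _ => h2 τ), Finset.sum_const, Finset.card_univ,
    Fintype.card_perm, Fintype.card_fin, nsmul_eq_mul]

theorem sum_log_factorial (m : ℕ) :
    ∑ t ∈ range m, Real.log ((t+1 : ℕ) : ℝ) = Real.log (m.factorial : ℝ) := by
  induction m with
  | zero => simp
  | succ m ih =>
    rw [Finset.sum_range_succ, ih, Nat.factorial_succ, Nat.cast_mul, Real.log_mul, add_comm]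
    · positivity
    · positivity

/-- sequential weights -/
noncomputable def W {κ : Type*} [DecidableEq κ] :
    (n : ℕ) → (Fin n → Finset κ) → (κ → ℕ) → (Fin n → κ) → ℝ
  | 0, _, _, _ => 1
  | n+1, A, R, t =>
    (if t 0 ∈ A 0 then (R (t 0) : ℝ) / (∑ j ∈ A 0, (R j : ℝ)) else 0) *
      W n (fun i => A i.succ) (fun j => if j = t 0 then R j - 1 else R j) (fun i => t i.succ)

theorem W_nonneg {κ : Type*} [DecidableEq κ] : ∀ (n : ℕ) (A : Fin n → Finset κ) (R : κ → ℕ)
    (t : Fin n → κ), 0 ≤ W n A R t
  | 0, _, _, _ => by simp [W]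
  | n+1, A, R, t => by
    rw [W]
    apply mul_nonneg
    · split_ifs
      · positivity
      · exact le_rfl
    · exact W_nonneg n _ _ _

theorem sum_W_le_one {κ : Type*} [DecidableEq κ] [Fintype κ] : ∀ (n : ℕ) (A : Fin n → Finset κ)
    (R : κ → ℕ), ∑ t : Fin n → κ, W n A R t ≤ 1
  | 0, _, _ => by simp [W]
  | n+1, A, R => by
    rw [← Equiv.sum_comp (Fin.consEquiv (fun _ => κ)), Fintype.sum_prod_type]
    simp only [Fin.consEquiv, Equiv.coe_fn_mk, W, Fin.cons_zero, Fin.cons_succ]
    have h1 : ∀ c : κ, ∑ t : Fin n → κ,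
        (if c ∈ A 0 then (R c : ℝ) / (∑ j ∈ A 0, (R j : ℝ)) else 0) *
          W n (fun i => A i.succ) (fun j => if j = c then R j - 1 else R j) t ≤
        (if c ∈ A 0 then (R c : ℝ) / (∑ j ∈ A 0, (R j : ℝ)) else 0) := by
      intro c
      rw [← Finset.mul_sum]
      apply mul_le_of_le_one_right
      · split_ifs
        · positivity
        · exact le_rfl
      · exact sum_W_le_one n _ _
    refine (Finset.sum_le_sum (fun c _ => h1 c)).trans ?_
    rw [← Finset.sum_filter, ← Finset.sum_div]
    have h2 : (Finset.univ.filter (fun c => c ∈ A 0)) = A 0 := by ext; simp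
    rw [h2]
    exact div_self_le_one _

theorem W_eq {κ : Type*} [DecidableEq κ] [Fintype κ] : ∀ (n : ℕ) (A : Fin n → Finset κ)
    (R : κ → ℕ) (t : Fin n → κ) (_ : ∀ i, t i ∈ A i)
    (_ : ∀ j, (univ.filter (fun i => t i = j)).card = R j),
    W n A R t = ∏ i, (((univ.filter (fun l => i ≤ l ∧ t l = t i)).card : ℝ) /
      ((univ.filter (fun l => i ≤ l ∧ t l ∈ A i)).card : ℝ))
  | 0, _, _, _, _, _ => by simp [W]
  | n+1, A, R, t, hA, hR => by
    rw [W, Fin.prod_univ_succ, if_pos (hA 0)]
    congr 1
    · congr 1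
      · rw [← hR]; simp
      · have : (univ.filter (fun l => 0 ≤ l ∧ t l ∈ A 0)).card = ∑ j ∈ A 0, R j := by
          rw [Finset.card_eq_sum_card_fiberwise (f := t) (t := A 0)]
          · apply Finset.sum_congr rfl
            intro j hj
            rw [← hR j]
            congr 1
            ext l
            simp only [mem_filter, mem_univ, Fin.zero_le, true_and, and_iff_right_iff_imp]
            rintro rfl
            exact hj
          · intro l hl
            simpa using hl
        rw [this]; push_cast; rfl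
    · rw [W_eq n _ _ _ (fun i => hA i.succ)]
      · apply Finset.prod_congr rfl
        intro i _
        congr 2
        · rw [Fin.card_filter_univ_succ]
          simp [Fin.succ_le_succ_iff]
        · rw [Fin.card_filter_univ_succ]
          simp [Fin.succ_le_succ_iff]
      · intro j
        have := hR j
        rw [Fin.card_filter_univ_succ] at this
        by_cases hj : j = t 0
        · rw [if_pos hj]
          rw [if_pos hj.symm] at this
          omega
        · rw [if_neg hj]
          rw [if_neg (fun h => hj h.symm)] at this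
          simpa using this

end Pool.Agent.X7.DistinctSum
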