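import Pool.Agent.X7.DistinctSum.Typed

open Finset
open scoped BigOperators

namespace Pool.Agent.X7.DistinctSum

theorem pad_bound {κ : Type*} [Fintype κ] [DecidableEq κ] (n k q : ℕ) (hq : 1 ≤ q)
    (A : Fin n → Finset κ) (hA : ∀ i, (A i).card = k) (α : κ → ℕ) (hα : ∀ j, α j ≤ q)
    (hne : (Cnt A α).Nonempty) :
    Real.log (Cnt A α).card ≤
      n * (Real.log ((k * q).factorial) / (k * q : ℕ) - Real.log q.factorial / q) := by
  classical
  let X := Fin n ⊕ (Σ j : κ, Fin (q - α j))
  let A' : X → Finset κ := Sum.elim A (fun v => {v.1})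
  let ext : (Fin n → κ) → (X → κ) := fun f => Sum.elim f (fun v => v.1)
  have hmem : ∀ f ∈ Cnt A α, ext f ∈ Cnt A' (fun _ => q) := by
    intro f hf
    rw [mem_Cnt] at hf ⊢
    refine ⟨?_, ?_⟩
    · rintro (i | v)
      · exact hf.1 i
      · simp [ext, A']
    · intro j
      have h1 := hf.2 j
      rw [Finset.card_filter] at h1 ⊢
      rw [Fintype.sum_sum_type, Fintype.sum_sigma]
      have e1 : (∑ a₁ : Fin n, if ext f (Sum.inl a₁) = j then 1 else 0) = α j := h1
      have e2 : (∑ x : κ, ∑ y : Fin (q - α x), if ext f (Sum.inr ⟨x, y⟩) = j then 1 else 0) =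
          q - α j := by
        change (∑ x : κ, ∑ _y : Fin (q - α x), if x = j then 1 else 0) = _
        simp
      rw [e1, e2]
      have := hα j
      omega
  have hinj : Set.InjOn ext (Cnt A α : Set (Fin n → κ)) := by
    intro f _ g _ hfg
    funext i
    exact congrFun hfg (Sum.inl i)
  have hle : (Cnt A α).card ≤ (Cnt A' (fun _ => q)).card :=
    Finset.card_le_card_of_injOn ext hmem hinj
  have hne' : (Cnt A' (fun _ => q)).Nonempty := by
    obtain ⟨f, hf⟩ := hne
    exact ⟨ext f, hmem f hf⟩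
  have h := gen_bregman q hq A' hne'
  have h2 : Real.log (Cnt A α).card ≤ Real.log (Cnt A' (fun _ => q)).card := by
    apply Real.log_le_log
    · exact_mod_cast hne.card_pos
    · exact_mod_cast hle
  refine (h2.trans h).trans (le_of_eq ?_)
  rw [Fintype.sum_sum_type]
  simp only [A', Sum.elim_inl, Sum.elim_inr, hA, Finset.card_singleton, one_mul, sub_self,
    Finset.sum_const_zero, add_zero, Finset.sum_const, Finset.card_univ, Fintype.card_fin,
    nsmul_eq_mul]

theorem prod_le_pow (k : ℕ) (c : ℝ) (hc : 0 ≤ c) :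
    ∏ i ∈ range k, (c + 1 + i) ≤ (c + (k + 1) / 2) ^ k := by
  induction k with
  | zero => simp
  | succ k ih =>
    rw [Finset.prod_range_succ]
    set y := c + ((k : ℝ) + 1) / 2 with hy
    have hy0 : 0 < y := by positivity
    have h1 : c + 1 + (k : ℝ) = y + ((k : ℝ) + 1) / 2 := by rw [hy]; ring
    have h2 : c + (((k + 1 : ℕ) : ℝ) + 1) / 2 = y + 1 / 2 := by rw [hy]; push_cast; ring
    rw [h1, h2]
    have h3 : y ^ k * (y + ((k : ℝ) + 1) / 2) ≤ (y + 1 / 2) ^ (k + 1) := by
      have hb := one_add_mul_le_pow (a := 1 / (2 * y)) (by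
        have : 0 ≤ 1 / (2 * y) := by positivity
        linarith) (k + 1)
      have h4 : (y + 1 / 2) ^ (k + 1) = y ^ (k + 1) * (1 + 1 / (2 * y)) ^ (k + 1) := by
        rw [← mul_pow]
        congr 1
        field_simp
      rw [h4]
      have h5 : y ^ k * (y + ((k : ℝ) + 1) / 2) =
          y ^ (k + 1) * (1 + ((k + 1 : ℕ) : ℝ) * (1 / (2 * y))) := by
        rw [pow_succ]
        push_cast
        field_simp
      rw [h5]
      exact mul_le_mul_of_nonneg_left hb (by positivity)
    refine le_trans ?_ h3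
    exact mul_le_mul_of_nonneg_right ih (by positivity)

theorem bern (a κ : ℝ) (ha : 0 ≤ a) (hκ : 0 ≤ κ) (q : ℕ) :
    a ^ q * (a + q * κ) ≤ a * (a + κ) ^ q := by
  induction q with
  | zero => simp
  | succ q ih =>
    have h1 : a * (a + κ) ^ (q + 1) = (a + κ) * (a * (a + κ) ^ q) := by ring
    rw [h1]
    refine le_trans ?_ (mul_le_mul_of_nonneg_left ih (by positivity))
    have h2 : 0 ≤ a ^ q * ((q : ℝ) * κ ^ 2) := by positivity
    have h3 : (a + κ) * (a ^ q * (a + q * κ)) =
        a ^ (q + 1) * (a + (q + 1) * κ) + a ^ q * ((q : ℝ) * κ ^ 2) := by ring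
    push_cast
    linarith

theorem fact_ineq (k : ℕ) (hk : 1 ≤ k) (q : ℕ) :
    ((k * q).factorial : ℝ) * ((q : ℝ) + 1) ^ (k * q) ≤
      ((k : ℝ) * q + 1) ^ (k * q) * (q.factorial : ℝ) ^ k := by
  induction q with
  | zero => simp
  | succ q ih =>
    have hk1 : (1 : ℝ) ≤ k := by exact_mod_cast hk
    have hq0 : (0 : ℝ) ≤ q := Nat.cast_nonneg q
    -- base inequality
    have hbase : ((k : ℝ) * q + 1) ^ q * ((k : ℝ) * q + (k + 1) / 2) * ((q : ℝ) + 2) ^ (q + 1) ≤
        (((k : ℝ) * q + k + 1) * ((q : ℝ) + 1)) ^ (q + 1) := by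
      set a := ((k : ℝ) * q + 1) * ((q : ℝ) + 2) with ha
      have ha0 : 0 < a := by positivity
      have hb : ((k : ℝ) * q + k + 1) * ((q : ℝ) + 1) = a + ((k : ℝ) - 1) := by rw [ha]; ring
      have hd : ((k : ℝ) * q + (k + 1) / 2) * ((q : ℝ) + 2) =
          a + ((k : ℝ) - 1) + ((k : ℝ) - 1) * q / 2 := by rw [ha]; ring
      have h1 : ((k : ℝ) * q + 1) ^ q * ((k : ℝ) * q + (k + 1) / 2) * ((q : ℝ) + 2) ^ (q + 1) =
          a ^ q * (((k : ℝ) * q + (k + 1) / 2) * ((q : ℝ) + 2)) := by
        rw [ha, mul_pow, pow_succ]; ring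
      rw [h1, hd, hb]
      have h2 := bern a ((k : ℝ) - 1) ha0.le (by linarith) q
      have h3 : a * (a ^ q * (a + ((k : ℝ) - 1) + ((k : ℝ) - 1) * q / 2)) ≤
          a * (a + ((k : ℝ) - 1)) ^ (q + 1) := by
        have h4 : a * (a + ((k : ℝ) - 1)) ^ (q + 1) =
            (a * (a + ((k : ℝ) - 1)) ^ q) * (a + ((k : ℝ) - 1)) := by ring
        rw [h4]
        refine le_trans ?_ (mul_le_mul_of_nonneg_right h2 (by linarith))
        have h5 : 0 ≤ a ^ q * ((q : ℝ) * ((k : ℝ) - 1) ^ 2 + a * ((k : ℝ) - 1) * q / 2) := by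
          have : 0 ≤ (k : ℝ) - 1 := by linarith
          positivity
        nlinarith [h5]
      exact le_of_mul_le_mul_left h3 ha0
    have hfac : ((k * (q + 1)).factorial : ℝ) =
        ((k * q).factorial : ℝ) * ∏ i ∈ range k, ((k : ℝ) * q + 1 + i) := by
      rw [Nat.mul_succ, ← Nat.factorial_mul_ascFactorial, Nat.ascFactorial_eq_prod_range]
      push_cast
      rfl
    have hP := prod_le_pow k ((k : ℝ) * q) (by positivity)
    have hpw := pow_le_pow_left₀ (by positivity) hbase k
    rw [hfac]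
    have hq1 : (0 : ℝ) < ((q : ℝ) + 1) ^ (k * q) := by positivity
    -- multiply by (q+1)^(kq)
    have h10 : ((k * q).factorial : ℝ) * (∏ i ∈ range k, ((k : ℝ) * q + 1 + i)) *
        ((((q + 1 : ℕ) : ℝ)) + 1) ^ (k * (q + 1)) * ((q : ℝ) + 1) ^ (k * q) ≤
        ((k : ℝ) * ((q + 1 : ℕ) : ℝ) + 1) ^ (k * (q + 1)) * ((q + 1).factorial : ℝ) ^ k *
          ((q : ℝ) + 1) ^ (k * q) := by
      calc ((k * q).factorial : ℝ) * (∏ i ∈ range k, ((k : ℝ) * q + 1 + i)) *
            ((((q + 1 : ℕ) : ℝ)) + 1) ^ (k * (q + 1)) * ((q : ℝ) + 1) ^ (k * q)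
          = (((k * q).factorial : ℝ) * ((q : ℝ) + 1) ^ (k * q)) *
            (∏ i ∈ range k, ((k : ℝ) * q + 1 + i)) * ((q : ℝ) + 2) ^ (k * (q + 1)) := by
            push_cast; ring
        _ ≤ (((k : ℝ) * q + 1) ^ (k * q) * (q.factorial : ℝ) ^ k) *
            ((k : ℝ) * q + (k + 1) / 2) ^ k * ((q : ℝ) + 2) ^ (k * (q + 1)) := by
            apply mul_le_mul_of_nonneg_right _ (by positivity)
            apply mul_le_mul ih hP (by positivity) (by positivity)
        _ = (((k : ℝ) * q + 1) ^ q * ((k : ℝ) * q + (k + 1) / 2) * ((q : ℝ) + 2) ^ (q + 1)) ^ k *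
            (q.factorial : ℝ) ^ k := by
            rw [mul_pow, mul_pow, ← pow_mul, ← pow_mul, mul_comm q k, mul_comm (q+1) k]; ring
        _ ≤ ((((k : ℝ) * q + k + 1) * ((q : ℝ) + 1)) ^ (q + 1)) ^ k * (q.factorial : ℝ) ^ k := by
            exact mul_le_mul_of_nonneg_right hpw (by positivity)
        _ = _ := by
            rw [Nat.factorial_succ]
            push_cast
            rw [← pow_mul, mul_comm (q+1) k, mul_pow, mul_pow, Nat.mul_succ, pow_add, pow_add]
            ring
    exact le_of_mul_le_mul_right h10 hq1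

theorem D_le (k q : ℕ) (hk : 1 ≤ k) (hq : 1 ≤ q) :
    Real.log ((k * q).factorial) / (k * q : ℕ) - Real.log q.factorial / q ≤
      Real.log (((k * q + 1 : ℕ) : ℝ) / ((q + 1 : ℕ) : ℝ)) := by
  have hkq : (0 : ℝ) < ((k * q : ℕ) : ℝ) := by exact_mod_cast Nat.mul_pos hk hq
  have hq0 : (0 : ℝ) < (q : ℝ) := by exact_mod_cast hq
  have hk0 : (0 : ℝ) < (k : ℝ) := by exact_mod_cast hk
  have h := Real.log_le_log (by positivity) (fact_ineq k hk q)
  rw [Real.log_mul (by positivity) (by positivity), Real.log_mul (by positivity) (by positivity),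
    Real.log_pow, Real.log_pow, Real.log_pow] at h
  rw [Real.log_div (by positivity) (by positivity)]
  have h1 : Real.log ((k * q).factorial) / (k * q : ℕ) - Real.log q.factorial / q =
      (Real.log ((k * q).factorial) - k * Real.log q.factorial) / (k * q : ℕ) := by
    push_cast
    field_simp
  rw [h1, div_le_iff₀ hkq]
  push_cast at h ⊢
  nlinarith

/-- the balanced multinomial coefficient, recursively -/
noncomputable def Mr (k : ℕ) : ℕ → ℝ
  | 0 => 1
  | n+1 => Mr k n * (((n + 1 : ℕ) : ℝ) / ((n / k + 1 : ℕ) : ℝ))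

theorem Mr_pos (k n : ℕ) : 0 < Mr k n := by
  induction n with
  | zero => simp [Mr]
  | succ n ih => rw [Mr]; positivity

theorem Mr_eq (k : ℕ) (hk : 1 ≤ k) (n : ℕ) :
    Mr k n * (((n / k + 1).factorial : ℝ) ^ (n % k) * ((n / k).factorial : ℝ) ^ (k - n % k)) =
      (n.factorial : ℝ) := by
  induction n with
  | zero => simp [Mr]
  | succ n ih =>
    rw [Mr, Nat.factorial_succ n]
    have hs : n % k < k := Nat.mod_lt _ (by omega)
    have hdm := Nat.div_add_mod n k
    set q := n / k with hq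
    set s := n % k with hs'
    have hpos : ((q + 1 : ℕ) : ℝ) ≠ 0 := by positivity
    by_cases hcase : s + 1 < k
    · have h1 : (n + 1) / k = q := by
        rw [← hdm, add_assoc, Nat.mul_add_div (by omega), Nat.div_eq_of_lt hcase, add_zero]
      have h2 : (n + 1) % k = s + 1 := by
        rw [← hdm, add_assoc, Nat.mul_add_mod, Nat.mod_eq_of_lt hcase]
      rw [h1, h2]
      have h3 : k - s = (k - (s + 1)) + 1 := by omega
      rw [h3, pow_succ] at ih
      push_cast at ih ⊢
      rw [← ih, pow_succ]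
      have h4 : ((q + 1).factorial : ℝ) = ((q : ℝ) + 1) * q.factorial := by
        rw [Nat.factorial_succ]; push_cast; ring
      push_cast at hpos
      field_simp
      rw [h4]
      ring
    · have hk' : k = s + 1 := by omega
      have h1 : (n + 1) / k = q + 1 := by
        have : n + 1 = k * (q + 1) := by rw [← hdm]; rw [Nat.mul_succ]; omega
        rw [this, Nat.mul_div_cancel_left _ (by omega)]
      have h2 : (n + 1) % k = 0 := by
        have : n + 1 = k * (q + 1) := by rw [← hdm]; rw [Nat.mul_succ]; omega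
        rw [this, Nat.mul_mod_right]
      rw [h1, h2, pow_zero, one_mul, Nat.sub_zero]
      have h3 : k - s = 1 := by omega
      rw [h3, pow_one] at ih
      have h5 : ((q + 1).factorial : ℝ) ^ k = ((q + 1).factorial : ℝ) ^ s *
          (((q : ℝ) + 1) * q.factorial) := by
        conv_lhs => rw [hk', pow_succ]
        congr 1
        rw [Nat.factorial_succ]; push_cast; ring
      rw [h5]
      push_cast at ih ⊢
      rw [← ih]
      push_cast at hpos
      field_simp

theorem Mr_mul (k q : ℕ) (hk : 1 ≤ k) :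
    Mr k (k * q) * (q.factorial : ℝ) ^ k = ((k * q).factorial : ℝ) := by
  have h := Mr_eq k hk (k * q)
  rw [Nat.mul_mod_right, Nat.mul_div_cancel_left _ (by omega), pow_zero, one_mul,
    Nat.sub_zero] at h
  exact h

theorem Mr_step (k q s : ℕ) (hk : 1 ≤ k) (hs : s ≤ k) :
    Mr k (k * q) * (((k * q + 1 : ℕ) : ℝ) / ((q + 1 : ℕ) : ℝ)) ^ s ≤ Mr k (k * q + s) := by
  induction s with
  | zero => simp
  | succ s ih =>
    have ih' := ih (by omega)
    rw [← add_assoc, Mr, pow_succ, ← mul_assoc]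
    have h1 : (k * q + s) / k = q := by
      rw [Nat.mul_add_div (by omega), Nat.div_eq_of_lt (by omega), add_zero]
    rw [h1]
    apply mul_le_mul ih' _ (by positivity) (Mr_pos _ _).le
    apply div_le_div_of_nonneg_right _ (by positivity)
    push_cast
    have : (0 : ℝ) ≤ s := Nat.cast_nonneg s
    linarith

theorem case_small {κ : Type*} [Fintype κ] [DecidableEq κ] (n k : ℕ) (hk : 1 ≤ k)
    (A : Fin (n + 1) → Finset κ) (hA : ∀ i, (A i).card = k) (α : κ → ℕ)
    (hα : ∀ j, α j ≤ n / k) (hne : (Cnt A α).Nonempty) :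
    ((Cnt A α).card : ℝ) ≤ Mr k (n + 1) := by
  set q := n / k with hq
  have hq1 : 1 ≤ q := by
    obtain ⟨f, hf⟩ := hne
    rw [mem_Cnt] at hf
    have h1 := hf.2 (f 0)
    have h2 : 0 < (univ.filter (fun i => f i = f 0)).card := Finset.card_pos.mpr ⟨0, by simp⟩
    have := hα (f 0)
    omega
  have hb := pad_bound (n + 1) k q hq1 A hA α hα hne
  have hcpos : (0 : ℝ) < (Cnt A α).card := by exact_mod_cast hne.card_pos
  rw [← Real.log_le_log_iff hcpos (Mr_pos _ _)]
  refine hb.trans ?_
  set D := Real.log ((k * q).factorial) / (k * q : ℕ) - Real.log q.factorial / q with hD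
  have hdm := Nat.div_add_mod n k
  have hs : n % k < k := Nat.mod_lt _ (by omega)
  set s := n % k + 1 with hs'
  have hn : n + 1 = k * q + s := by rw [hq, hs']; omega
  rw [hn]
  have hkq : (0 : ℝ) < ((k * q : ℕ) : ℝ) := by exact_mod_cast Nat.mul_pos hk hq1
  have hq0 : (0 : ℝ) < (q : ℝ) := by exact_mod_cast hq1
  have hk0 : (0 : ℝ) < (k : ℝ) := by exact_mod_cast hk
  have h1 : ((k * q : ℕ) : ℝ) * D = Real.log (Mr k (k * q)) := by
    have h2 := congrArg Real.log (Mr_mul k q hk)
    rw [Real.log_mul (Mr_pos _ _).ne' (by positivity), Real.log_pow] at h2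
    rw [hD]
    have h3 : ((k * q : ℕ) : ℝ) * (Real.log ((k * q).factorial) / (k * q : ℕ) -
        Real.log q.factorial / q) =
        Real.log ((k * q).factorial) - k * Real.log q.factorial := by
      push_cast
      field_simp
    rw [h3]
    linarith
  have h4 : Real.log (Mr k (k * q)) +
      s * Real.log (((k * q + 1 : ℕ) : ℝ) / ((q + 1 : ℕ) : ℝ)) ≤ Real.log (Mr k (k * q + s)) := by
    rw [← Real.log_pow, ← Real.log_mul (Mr_pos _ _).ne' (by positivity)]
    apply Real.log_le_log
    · have := Mr_pos k (k * q)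
      positivity
    · exact Mr_step k q s hk (by omega)
  have h5 := D_le k q hk hq1
  rw [← hD] at h5
  have h6 : (((k * q + s : ℕ)) : ℝ) * D = ((k * q : ℕ) : ℝ) * D + s * D := by push_cast; ring
  rw [h6, h1]
  refine le_trans ?_ h4
  have : (0 : ℝ) ≤ s := Nat.cast_nonneg s
  nlinarith [mul_le_mul_of_nonneg_left h5 this]

theorem double_count {κ : Type*} [Fintype κ] [DecidableEq κ] (n : ℕ)
    (A : Fin (n + 1) → Finset κ) (α : κ → ℕ) (j : κ) (B : ℝ)
    (hB : ∀ i : Fin (n + 1), ∀ β : κ → ℕ, ((Cnt (fun l => A (i.succAbove l)) β).card : ℝ) ≤ B) :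
    (α j : ℝ) * (Cnt A α).card ≤ (n + 1) * B := by
  have h1 : α j * (Cnt A α).card = ∑ i : Fin (n + 1), ((Cnt A α).filter (fun f => f i = j)).card := by
    simp_rw [Finset.card_filter]
    rw [Finset.sum_comm]
    rw [Finset.sum_congr rfl (g := fun _ => α j), Finset.sum_const, smul_eq_mul, mul_comm]
    intro f hf
    rw [mem_Cnt] at hf
    rw [← hf.2 j, Finset.card_filter]
  have h2 : ∀ i : Fin (n + 1), (((Cnt A α).filter (fun f => f i = j)).card : ℝ) ≤ B := by
    intro i
    refine le_trans ?_ (hB i (fun j' => if j' = j then α j' - 1 else α j'))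
    norm_cast
    apply Finset.card_le_card_of_injOn (fun f => fun l => f (i.succAbove l))
    · intro f hf
      simp only [coe_filter, Set.mem_ofPred_eq] at hf
      obtain ⟨hf, hfi⟩ := hf
      rw [mem_Cnt] at hf
      simp only [mem_coe]
      rw [mem_Cnt]
      refine ⟨fun l => hf.1 _, fun j' => ?_⟩
      have h3 := hf.2 j'
      rw [Finset.card_filter, Fin.sum_univ_succAbove _ i] at h3
      rw [Finset.card_filter]
      by_cases hj : j' = j
      · subst hj
        rw [if_pos hfi] at h3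
        rw [if_pos rfl]
        omega
      · rw [if_neg hj]
        rw [if_neg (by rw [hfi]; exact fun h => hj h.symm)] at h3
        omega
    · intro f hf g hg hfg
      simp only [coe_filter, Set.mem_ofPred_eq] at hf hg
      funext l
      rcases Fin.eq_self_or_eq_succAbove i l with h | ⟨l', h⟩
      · rw [h, hf.2, hg.2]
      · rw [h]; exact congrFun hfg l'
  have h3 : ((α j * (Cnt A α).card : ℕ) : ℝ) ≤ ∑ _i : Fin (n + 1), B := by
    rw [h1]
    push_cast
    exact Finset.sum_le_sum (fun i _ => h2 i)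
  rw [Finset.sum_const, Finset.card_univ, Fintype.card_fin, nsmul_eq_mul] at h3
  push_cast at h3
  exact h3

theorem main {κ : Type*} [Fintype κ] [DecidableEq κ] (k : ℕ) (hk : 1 ≤ k) (n : ℕ) :
    ∀ (A : Fin n → Finset κ) (_ : ∀ i, (A i).card = k) (α : κ → ℕ),
      ((Cnt A α).card : ℝ) ≤ Mr k n := by
  induction n with
  | zero =>
    intro A _ α
    have : (Cnt A α).card ≤ 1 := by
      refine (Finset.card_le_univ _).trans ?_
      simp
    simp only [Mr]
    exact_mod_cast this
  | succ n ih =>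
    intro A hA α
    by_cases hcase : ∃ j, n / k + 1 ≤ α j
    · obtain ⟨j, hj⟩ := hcase
      have h1 := double_count n A α j (Mr k n) (fun i β => ih _ (fun l => hA _) β)
      rw [Mr]
      have h2 : (((n / k + 1 : ℕ)) : ℝ) ≤ α j := by exact_mod_cast hj
      have h3 : (0 : ℝ) < ((n / k + 1 : ℕ) : ℝ) := by positivity
      rw [mul_div_assoc', le_div_iff₀ h3]
      have h4 : (0 : ℝ) ≤ (Cnt A α).card := by positivity
      push_cast at h1 h2 ⊢
      nlinarith
    · push Not at hcase
      by_cases hne : (Cnt A α).Nonempty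
      · exact case_small n k hk A hA α (fun j => by have := hcase j; omega) hne
      · rw [Finset.not_nonempty_iff_eq_empty] at hne
        rw [hne]
        simpa using (Mr_pos k (n + 1)).le

end Pool.Agent.X7.DistinctSum
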