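import Pool.Agent.X7.DistinctSum.Bregman

open Finset
open scoped BigOperators

namespace Pool.Agent.X7.DistinctSum

/-- the set of choice functions with prescribed fiber sizes -/
def Cnt {κ X : Type*} [Fintype X] [DecidableEq X] [Fintype κ] [DecidableEq κ] (A : X → Finset κ)
    (R : κ → ℕ) : Finset (X → κ) :=
  univ.filter (fun t => (∀ i, t i ∈ A i) ∧ ∀ j, (univ.filter (fun i => t i = j)).card = R j)

theorem mem_Cnt {κ X : Type*} [Fintype X] [DecidableEq X] [Fintype κ] [DecidableEq κ]
    {A : X → Finset κ} {R : κ → ℕ} {t : X → κ} :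
    t ∈ Cnt A R ↔ (∀ i, t i ∈ A i) ∧ ∀ j, (univ.filter (fun i => t i = j)).card = R j := by
  simp [Cnt]

/-- one order: the sum of weights is at most one. -/
theorem sum_weights_le {κ : Type*} [Fintype κ] [DecidableEq κ] (N : ℕ) (A : Fin N → Finset κ)
    (R : κ → ℕ) (τ : Equiv.Perm (Fin N)) :
    ∑ t ∈ Cnt A R, ∏ x, (((univ.filter (fun y => τ x ≤ τ y ∧ t y = t x)).card : ℝ) /
      ((univ.filter (fun y => τ x ≤ τ y ∧ t y ∈ A x)).card : ℝ)) ≤ 1 := by
  refine le_trans ?_ (sum_W_le_one N (fun i => A (τ.symm i)) R)
  have h1 : ∀ t ∈ Cnt A R, ∏ x, (((univ.filter (fun y => τ x ≤ τ y ∧ t y = t x)).card : ℝ) /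
      ((univ.filter (fun y => τ x ≤ τ y ∧ t y ∈ A x)).card : ℝ)) =
      W N (fun i => A (τ.symm i)) R (fun i => t (τ.symm i)) := by
    intro t ht
    rw [mem_Cnt] at ht
    rw [W_eq N (fun i => A (τ.symm i)) R (fun i => t (τ.symm i)) (fun i => ht.1 _)]
    · conv_rhs => rw [← Equiv.prod_comp τ]
      apply Finset.prod_congr rfl
      intro x _
      congr 2
      · apply Finset.card_bij (fun y _ => τ y)
        · intro y hy
          simpa using hy
        · intro a _ b _ hab
          exact τ.injective hab
        · intro b hb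
          refine ⟨τ.symm b, ?_, by simp⟩
          simpa using hb
      · apply Finset.card_bij (fun y _ => τ y)
        · intro y hy
          simpa using hy
        · intro a _ b _ hab
          exact τ.injective hab
        · intro b hb
          refine ⟨τ.symm b, ?_, by simp⟩
          simpa using hb
    · intro j
      rw [← ht.2 j]
      apply Finset.card_bij (fun y _ => τ.symm y)
      · intro y hy
        simpa using hy
      · intro a _ b _ hab
        exact τ.symm.injective hab
      · intro b hb
        refine ⟨τ b, ?_, by simp⟩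
        simpa using hb
  rw [Finset.sum_congr rfl h1]
  have h2 : ∑ t ∈ Cnt A R, W N (fun i => A (τ.symm i)) R (fun i => t (τ.symm i)) =
      ∑ t ∈ (Cnt A R).image (fun (t : Fin N → κ) => fun i => t (τ.symm i)),
        W N (fun i => A (τ.symm i)) R t := by
    rw [Finset.sum_image]
    intro a _ b _ hab
    funext i
    have := congrFun hab (τ i)
    simpa using this
  rw [h2]
  exact Finset.sum_le_sum_of_subset_of_nonneg (Finset.subset_univ _)
    (fun t _ _ => W_nonneg _ _ _ _)

/-- Jensen step. -/
theorem jensen {ι : Type*} (s : Finset ι) (w : ι → ℝ) (hw : ∀ i ∈ s, 0 < w i)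
    (hs : ∑ i ∈ s, w i ≤ 1) (hne : s.Nonempty) :
    (s.card : ℝ) * Real.log s.card ≤ - ∑ i ∈ s, Real.log (w i) := by
  have hc : (0 : ℝ) < s.card := by exact_mod_cast hne.card_pos
  have h1 : ∀ i ∈ s, Real.log s.card + Real.log (w i) ≤ s.card * w i - 1 := by
    intro i hi
    rw [← Real.log_mul hc.ne' (hw i hi).ne']
    exact Real.log_le_sub_one_of_pos (mul_pos hc (hw i hi))
  have h2 := Finset.sum_le_sum h1
  rw [Finset.sum_add_distrib, Finset.sum_const, Finset.sum_sub_distrib, Finset.sum_const,
    ← Finset.mul_sum, nsmul_eq_mul, nsmul_eq_mul] at h2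
  nlinarith

theorem fin_bregman {κ : Type*} [Fintype κ] [DecidableEq κ] (N q : ℕ) (hq : 1 ≤ q)
    (A : Fin N → Finset κ) (hne : (Cnt A (fun _ => q)).Nonempty) :
    Real.log (Cnt A (fun _ => q)).card ≤
      ∑ x, (Real.log (((A x).card * q).factorial) / ((A x).card * q : ℕ) -
        Real.log (q.factorial) / q) := by
  set T := Cnt A (fun _ => q) with hT
  have hc : (0 : ℝ) < T.card := by exact_mod_cast hne.card_pos
  -- per order
  have h1 : ∀ τ : Equiv.Perm (Fin N), (T.card : ℝ) * Real.log T.card ≤
      ∑ t ∈ T, ∑ x, (Real.log ((univ.filter (fun y => τ x ≤ τ y ∧ t y ∈ A x)).card : ℝ) -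
        Real.log ((univ.filter (fun y => τ x ≤ τ y ∧ t y = t x)).card : ℝ)) := by
    intro τ
    have hpos1 : ∀ t ∈ T, ∀ x, (0 : ℝ) < (univ.filter (fun y => τ x ≤ τ y ∧ t y = t x)).card := by
      intro t _ x
      exact_mod_cast Finset.card_pos.mpr ⟨x, by simp⟩
    have hpos2 : ∀ t ∈ T, ∀ x, (0 : ℝ) < (univ.filter (fun y => τ x ≤ τ y ∧ t y ∈ A x)).card := by
      intro t ht x
      exact_mod_cast Finset.card_pos.mpr ⟨x, by simpa using (mem_Cnt.mp ht).1 x⟩
    have h2 := jensen T _ (fun t ht => Finset.prod_pos (fun x _ =>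
      div_pos (hpos1 t ht x) (hpos2 t ht x))) (sum_weights_le N A (fun _ => q) τ) hne
    refine h2.trans (le_of_eq ?_)
    rw [← Finset.sum_neg_distrib]
    apply Finset.sum_congr rfl
    intro t ht
    rw [Real.log_prod (fun x _ => (div_pos (hpos1 t ht x) (hpos2 t ht x)).ne'),
      ← Finset.sum_neg_distrib]
    apply Finset.sum_congr rfl
    intro x _
    rw [Real.log_div (hpos1 t ht x).ne' (hpos2 t ht x).ne']
    ring
  have h3 := Finset.sum_le_sum (fun τ (_ : τ ∈ (univ : Finset (Equiv.Perm (Fin N)))) => h1 τ)
  rw [Finset.sum_const, Finset.card_univ, Fintype.card_perm, Fintype.card_fin, nsmul_eq_mul,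
    Finset.sum_comm] at h3
  -- per t
  have h4 : ∀ t ∈ T, ∑ τ : Equiv.Perm (Fin N), ∑ x,
      (Real.log ((univ.filter (fun y => τ x ≤ τ y ∧ t y ∈ A x)).card : ℝ) -
        Real.log ((univ.filter (fun y => τ x ≤ τ y ∧ t y = t x)).card : ℝ)) =
      (N.factorial : ℝ) * ∑ x, (Real.log (((A x).card * q).factorial) / ((A x).card * q : ℕ) -
        Real.log (q.factorial) / q) := by
    intro t ht
    rw [mem_Cnt] at ht
    rw [Finset.sum_comm, Finset.mul_sum]
    apply Finset.sum_congr rfl
    intro x _
    rw [Finset.sum_sub_distrib, mul_sub]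
    have hcardA : (univ.filter (fun y => t y ∈ A x)).card = (A x).card * q := by
      rw [Finset.card_eq_sum_card_fiberwise (f := t) (t := A x)]
      · rw [Finset.sum_congr rfl (g := fun _ => q), Finset.sum_const, smul_eq_mul]
        intro j hj
        rw [← ht.2 j]
        congr 1
        ext l
        simp only [mem_filter, mem_univ, true_and, and_iff_right_iff_imp]
        rintro rfl
        exact hj
      · intro l hl
        simpa using hl
    have hApos : 0 < (A x).card * q := by
      apply Nat.mul_pos _ (by omega)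
      exact Finset.card_pos.mpr ⟨t x, ht.1 x⟩
    congr 1
    · have h5 := avg_rank (fun m => Real.log (m : ℝ)) (univ.filter (fun y => t y ∈ A x)) x
        (by simpa using ht.1 x)
      rw [hcardA, sum_log_factorial] at h5
      have h6 : ∀ τ : Equiv.Perm (Fin N), (univ.filter (fun y => τ x ≤ τ y ∧ t y ∈ A x)) =
          (univ.filter (fun y => t y ∈ A x)).filter (fun y => τ x ≤ τ y) := by
        intro τ
        rw [Finset.filter_filter]
        ext y; simp [and_comm]
      rw [Finset.sum_congr rfl (fun τ _ => by rw [h6 τ])]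
      have h7 : (((A x).card * q : ℕ) : ℝ) ≠ 0 := by exact_mod_cast hApos.ne'
      rw [mul_div_assoc', eq_div_iff h7, ← h5, mul_comm]
    · have h5 := avg_rank (fun m => Real.log (m : ℝ)) (univ.filter (fun y => t y = t x)) x
        (by simp)
      rw [ht.2 (t x), sum_log_factorial] at h5
      have h6 : ∀ τ : Equiv.Perm (Fin N), (univ.filter (fun y => τ x ≤ τ y ∧ t y = t x)) =
          (univ.filter (fun y => t y = t x)).filter (fun y => τ x ≤ τ y) := by
        intro τ
        rw [Finset.filter_filter]
        ext y; simp [and_comm]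
      rw [Finset.sum_congr rfl (fun τ _ => by rw [h6 τ])]
      have h7 : (q : ℝ) ≠ 0 := by exact_mod_cast (by omega : q ≠ 0)
      rw [mul_div_assoc', eq_div_iff h7, ← h5, mul_comm]
  rw [Finset.sum_congr rfl h4, Finset.sum_const, nsmul_eq_mul] at h3
  have hN : (0 : ℝ) < N.factorial := by exact_mod_cast Nat.factorial_pos N
  have h8 : (T.card : ℝ) * N.factorial * Real.log T.card ≤ (T.card : ℝ) * N.factorial *
      ∑ x, (Real.log (((A x).card * q).factorial) / ((A x).card * q : ℕ) -
        Real.log (q.factorial) / q) := by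
    nlinarith
  exact le_of_mul_le_mul_left h8 (mul_pos hc hN)

theorem gen_bregman {κ X : Type*} [Fintype X] [DecidableEq X] [Fintype κ] [DecidableEq κ] (q : ℕ)
    (hq : 1 ≤ q) (A : X → Finset κ) (hne : (Cnt A (fun _ => q)).Nonempty) :
    Real.log (Cnt A (fun _ => q)).card ≤
      ∑ x, (Real.log (((A x).card * q).factorial) / ((A x).card * q : ℕ) -
        Real.log (q.factorial) / q) := by
  let e := Fintype.equivFin X
  have hcard : (Cnt A (fun _ => q)).card = (Cnt (fun i => A (e.symm i)) (fun _ => q)).card := by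
    apply Finset.card_bij (fun t _ => fun i => t (e.symm i))
    · intro t ht
      rw [mem_Cnt] at ht ⊢
      refine ⟨fun i => ht.1 _, fun j => ?_⟩
      rw [← ht.2 j]
      apply Finset.card_bij (fun y _ => e.symm y)
      · intro y hy
        simpa using hy
      · intro a _ b _ hab
        exact e.symm.injective hab
      · intro b hb
        refine ⟨e b, ?_, by simp⟩
        simpa using hb
    · intro a _ b _ hab
      funext i
      have := congrFun hab (e i)
      simpa using this
    · intro t ht
      refine ⟨fun x => t (e x), ?_, by funext i; simp⟩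
      rw [mem_Cnt] at ht ⊢
      refine ⟨fun i => by simpa using ht.1 (e i), fun j => ?_⟩
      rw [← ht.2 j]
      apply Finset.card_bij (fun y _ => e y)
      · intro y hy
        simpa using hy
      · intro a _ b _ hab
        exact e.injective hab
      · intro b hb
        refine ⟨e.symm b, ?_, by simp⟩
        simpa using hb
  have hne' : (Cnt (fun i => A (e.symm i)) (fun _ => q)).Nonempty := by
    rw [← Finset.card_pos, ← hcard, Finset.card_pos]; exact hne
  have h := fin_bregman _ q hq (fun i => A (e.symm i)) hne'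
  rw [← hcard] at h
  refine h.trans (le_of_eq ?_)
  exact Equiv.sum_comp e.symm (fun x => (Real.log (((A x).card * q).factorial) /
    ((A x).card * q : ℕ) - Real.log (q.factorial) / q))

end Pool.Agent.X7.DistinctSum
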